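import Mathlib

namespace Pool.Agent.Lib.MP_10d431_nt

open Finset

variable (p : ℕ) [hp : Fact p.Prime]

/-- quadratic character -/
noncomputable def chi (a : ZMod p) : ℤ := quadraticChar (ZMod p) a

/-- additive character -/
noncomputable def e (a : ZMod p) : ℂ := ZMod.stdAddChar a

/-- elements with quadratic character `s` -/
noncomputable def Q (s : ℤ) : Finset (ZMod p) := Finset.univ.filter (fun a => chi p a = s)

/-- the product over `Q s` -/
noncomputable def P (s : ℤ) (x : ℂ) : ℂ := ∏ a ∈ Q p s, (x - e p a)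

variable {p}

lemma chi_mul (a b : ZMod p) : chi p (a * b) = chi p a * chi p b :=
  map_mul (quadraticChar (ZMod p)) a b

lemma chi_eq_zero {a : ZMod p} : chi p a = 0 ↔ a = 0 := quadraticChar_eq_zero_iff

lemma chi_dichotomy {a : ZMod p} (ha : a ≠ 0) : chi p a = 1 ∨ chi p a = -1 :=
  quadraticChar_dichotomy ha

lemma chi_natCast (k : ℕ) : chi p (k : ZMod p) = legendreSym p k := by
  simp [chi, legendreSym]

lemma chi_intCast (k : ℤ) : chi p (k : ZMod p) = legendreSym p k := by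
  simp [chi, legendreSym]

lemma e_add (a b : ZMod p) : e p (a + b) = e p a * e p b := by
  simp [e, AddChar.map_add_eq_mul]

lemma e_zero : e p 0 = 1 := by simp [e]

lemma e_nsmul (n : ℕ) (a : ZMod p) : e p ((n : ZMod p) * a) = e p a ^ n := by
  rw [← nsmul_eq_mul, e, e, AddChar.map_nsmul_eq_pow]

lemma e_mul_neg (a : ZMod p) : e p a * e p (-a) = 1 := by
  rw [← e_add]; simp [e_zero]

lemma e_natCast (k : ℕ) : e p (k : ZMod p) = Complex.exp (2 * Real.pi * Complex.I * k / p) := by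
  have := ZMod.stdAddChar_coe (N := p) (k : ℤ)
  simpa [e] using this

lemma e_eq_one {a : ZMod p} (h : e p a = 1) : a = 0 := by
  apply ZMod.injective_stdAddChar (N := p)
  simpa [e] using h

lemma mem_Q {s : ℤ} {a : ZMod p} : a ∈ Q p s ↔ chi p a = s := by simp [Q]

/-- multiplication by a unit `c` maps `Q s` onto `Q (chi c * s)` -/
lemma prod_Q_mul {c : ZMod p} (hc : c ≠ 0) (s : ℤ) (f : ZMod p → ℂ) :
    ∏ a ∈ Q p s, f (c * a) = ∏ a ∈ Q p (chi p c * s), f a := by
  have hcc : chi p c * chi p c = 1 := by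
    rcases chi_dichotomy hc with h | h <;> simp [h]
  refine Finset.prod_bij (fun a _ => c * a) ?_ ?_ ?_ ?_
  · intro a ha
    rw [mem_Q] at ha ⊢
    rw [chi_mul, ha]
  · intro a _ b _ h
    exact mul_left_cancel₀ hc h
  · intro b hb
    refine ⟨c⁻¹ * b, ?_, by rw [← mul_assoc, mul_inv_cancel₀ hc, one_mul]⟩
    rw [mem_Q] at hb ⊢
    have h1 : chi p c * chi p (c⁻¹ * b) = chi p b := by
      rw [← chi_mul, ← mul_assoc, mul_inv_cancel₀ hc, one_mul]
    rw [hb] at h1
    have h2 : chi p c * (chi p c * chi p (c⁻¹ * b)) = chi p c * (chi p c * s) := by rw [h1]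
    rw [← mul_assoc, ← mul_assoc, hcc, one_mul, one_mul] at h2
    exact h2
  · intro a _
    rfl

lemma prod_all (x : ℂ) : ∏ a : ZMod p, (x - e p a) = x ^ p - 1 := by
  have hprim : IsPrimitiveRoot (Complex.exp (2 * Real.pi * Complex.I / p)) p :=
    Complex.isPrimitiveRoot_exp p hp.out.ne_zero
  have h := X_pow_sub_C_eq_prod hprim (α := 1) (a := 1) hp.out.pos (one_pow _)
  have h2 := congrArg (Polynomial.eval x) h
  simp only [Polynomial.eval_sub, Polynomial.eval_pow, Polynomial.eval_X, Polynomial.eval_C,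
    Polynomial.eval_prod, mul_one] at h2
  rw [h2]
  symm
  refine Finset.prod_bij (fun (i : ℕ) _ => (i : ZMod p)) ?_ ?_ ?_ ?_
  · intro a _; exact Finset.mem_univ _
  · intro a ha b hb h
    rw [Finset.mem_range] at ha hb
    have := congrArg ZMod.val h
    rwa [ZMod.val_cast_of_lt ha, ZMod.val_cast_of_lt hb] at this
  · intro b _
    exact ⟨b.val, Finset.mem_range.2 (ZMod.val_lt b), ZMod.natCast_zmod_val b⟩
  · intro a _
    rw [e_natCast, ← Complex.exp_nat_mul]
    congr 2
    ring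

lemma P_mul_P (x : ℂ) : P p 1 x * P p (-1) x * (x - 1) = x ^ p - 1 := by
  classical
  rw [← prod_all (p := p) x]
  have hU : (Finset.univ : Finset (ZMod p)) = insert 0 (Q p 1 ∪ Q p (-1)) := by
    ext a
    simp only [Finset.mem_univ, Finset.mem_insert, Finset.mem_union, mem_Q, true_iff]
    by_cases ha : a = 0
    · exact Or.inl ha
    · exact Or.inr (chi_dichotomy ha)
  have h0 : (0 : ZMod p) ∉ Q p 1 ∪ Q p (-1) := by
    simp only [Finset.mem_union, mem_Q, chi_eq_zero.2 rfl]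
    norm_num
  have hd : Disjoint (Q p 1) (Q p (-1)) := by
    rw [Finset.disjoint_left]
    intro a h1 h2
    rw [mem_Q] at h1 h2
    rw [h1] at h2
    norm_num at h2
  rw [hU, Finset.prod_insert h0, Finset.prod_union hd, e_zero, P, P]
  ring

/-- the norm relation for `2` -/
lemma P_mul_neg (h2 : chi p 2 = -1) (hev : Even (Q p 1).card) (x : ℂ) :
    P p 1 x * P p 1 (-x) = P p (-1) (x ^ 2) := by
  have h20 : (2 : ZMod p) ≠ 0 := by
    intro h
    rw [chi_eq_zero.2 h] at h2
    norm_num at h2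
  have h := prod_Q_mul h20 1 (fun a => x ^ 2 - e p a)
  rw [h2, mul_one] at h
  rw [P, P, P, ← h, ← Finset.prod_mul_distrib]
  have : ∀ a ∈ Q p 1, (x - e p a) * (-x - e p a) = (-1) * (x ^ 2 - e p (2 * a)) := by
    intro a _
    have := e_nsmul 2 a
    push_cast at this
    rw [this]; ring
  rw [Finset.prod_congr rfl this, Finset.prod_mul_distrib, Finset.prod_const, hev.neg_one_pow,
    one_mul]

/-- the norm relation for `5` -/
lemma P_five (h5 : chi p 5 = 1) {η : ℂ} (hη : IsPrimitiveRoot η 5) :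
    P p 1 η * P p 1 (η ^ 2) * P p 1 (η ^ 3) * P p 1 (η ^ 4) = 1 := by
  have h50 : (5 : ZMod p) ≠ 0 := by
    intro h
    rw [chi_eq_zero.2 h] at h5
    norm_num at h5
  have h := prod_Q_mul h50 1 (fun a => 1 - e p a)
  rw [h5, mul_one] at h
  have hne : P p 1 1 ≠ 0 := by
    rw [P, Finset.prod_ne_zero_iff]
    intro a ha h0
    have : e p a = 1 := by linear_combination -h0
    have h1 := e_eq_one this
    rw [mem_Q, h1, chi_eq_zero.2 rfl] at ha
    norm_num at ha
  have hη5 : η ^ 5 = 1 := hη.pow_eq_one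
  have hs : 1 + η + η ^ 2 + η ^ 3 + η ^ 4 = 0 := by
    have := hη.geom_sum_eq_zero (by norm_num)
    simpa [Finset.sum_range_succ] using this
  apply mul_left_cancel₀ hne
  rw [mul_one]
  conv_rhs => rw [P, ← h]
  simp only [P, ← Finset.prod_mul_distrib]
  refine Finset.prod_congr rfl ?_
  intro a _
  have := e_nsmul 5 a
  push_cast at this
  rw [this]
  set y := e p a
  have h4 : η ^ 4 = -(1 + η + η ^ 2 + η ^ 3) := by linear_combination hs
  have key : (η - y) * (η ^ 2 - y) * (η ^ 3 - y) * (η ^ 4 - y) = 1 + y + y ^ 2 + y ^ 3 + y ^ 4 := by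
    linear_combination (η ^ 5 + 1 - y * (η + η ^ 2 + η ^ 3 + η ^ 4) + y ^ 2 * (2 + η + η ^ 2)) * hη5 + (- y + y ^ 2 - y ^ 3) * hs
  rw [key]; ring

/-- the half system of residues -/
noncomputable def H (p : ℕ) [Fact p.Prime] : Finset ℕ :=
  (Finset.Icc 1 ((p - 1) / 2)).filter (fun r : ℕ => chi p (r : ZMod p) = 1)

lemma cast_inj_half (hodd : p % 2 = 1) {a b : ℕ} (ha : a ∈ Finset.Icc 1 ((p - 1) / 2))
    (hb : b ∈ Finset.Icc 1 ((p - 1) / 2)) :
    ((a : ZMod p) = b → a = b) ∧ (a : ZMod p) ≠ -b := by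
  rw [Finset.mem_Icc] at ha hb
  constructor
  · intro h
    have := congrArg ZMod.val h
    rwa [ZMod.val_cast_of_lt (by omega), ZMod.val_cast_of_lt (by omega)] at this
  · intro h
    have h1 : ((a + b : ℕ) : ZMod p) = 0 := by push_cast; rw [h]; ring
    rw [ZMod.natCast_eq_zero_iff] at h1
    have := Nat.le_of_dvd (by omega) h1
    omega

lemma exists_half (hodd : p % 2 = 1) {a : ZMod p} (ha : a ≠ 0) :
    ∃ r ∈ Finset.Icc 1 ((p - 1) / 2), (r : ZMod p) = a ∨ -(r : ZMod p) = a := by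
  have h1 : a.val < p := ZMod.val_lt a
  have h0 : a.val ≠ 0 := by
    intro h; exact ha ((ZMod.val_eq_zero a).1 h)
  by_cases h : a.val ≤ (p - 1) / 2
  · exact ⟨a.val, Finset.mem_Icc.2 ⟨by omega, h⟩, Or.inl (ZMod.natCast_zmod_val a)⟩
  · refine ⟨p - a.val, Finset.mem_Icc.2 ⟨by omega, by omega⟩, Or.inr ?_⟩
    rw [Nat.cast_sub h1.le, ZMod.natCast_self, ZMod.natCast_zmod_val]
    ring

lemma prod_Q_half (hodd : p % 2 = 1) (hm : chi p (-1) = 1) {M : Type*} [CommMonoid M]
    (f : ZMod p → M) :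
    ∏ a ∈ Q p 1, f a = ∏ r ∈ H p, (f (r : ZMod p) * f (-(r : ZMod p))) := by
  classical
  have hneg : ∀ a : ZMod p, chi p (-a) = chi p a := by
    intro a
    rw [← neg_one_mul, chi_mul, hm, one_mul]
  have hQ : Q p 1 = (H p).image (fun r : ℕ => (r : ZMod p)) ∪
      (H p).image (fun r : ℕ => -(r : ZMod p)) := by
    ext a
    simp only [mem_Q, Finset.mem_union, Finset.mem_image, H, Finset.mem_filter]
    constructor
    · intro ha
      have ha0 : a ≠ 0 := by
        intro h; rw [h, chi_eq_zero.2 rfl] at ha; norm_num at ha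
      obtain ⟨r, hr, h | h⟩ := exists_half hodd ha0
      · exact Or.inl ⟨r, ⟨hr, by rw [h, ha]⟩, h⟩
      · exact Or.inr ⟨r, ⟨hr, by rw [← hneg, h, ha]⟩, h⟩
    · rintro (⟨r, ⟨_, h1⟩, h⟩ | ⟨r, ⟨_, h1⟩, h⟩)
      · rw [← h, h1]
      · rw [← h, hneg, h1]
  have hd : Disjoint ((H p).image (fun r : ℕ => (r : ZMod p)))
      ((H p).image (fun r : ℕ => -(r : ZMod p))) := by
    rw [Finset.disjoint_left]
    intro a h1 h2
    simp only [Finset.mem_image, H, Finset.mem_filter] at h1 h2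
    obtain ⟨r, ⟨hr, _⟩, h⟩ := h1
    obtain ⟨r', ⟨hr', _⟩, h'⟩ := h2
    exact (cast_inj_half hodd hr hr').2 (h.trans h'.symm)
  rw [hQ, Finset.prod_union hd, Finset.prod_image, Finset.prod_image, Finset.prod_mul_distrib]
  · intro a ha b hb h
    simp only [H, Finset.coe_filter, Set.mem_ofPred_eq] at ha hb
    exact (cast_inj_half hodd ha.1 hb.1).1 (neg_injective h)
  · intro a ha b hb h
    simp only [H, Finset.coe_filter, Set.mem_ofPred_eq] at ha hb
    exact (cast_inj_half hodd ha.1 hb.1).1 h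

lemma prod_sq (hodd : p % 2 = 1) {M : Type*} [CommMonoid M] (f : ZMod p → M) :
    ∏ k ∈ Finset.Icc 1 ((p - 1) / 2), f ((k : ZMod p) ^ 2) = ∏ a ∈ Q p 1, f a := by
  refine Finset.prod_bij (fun (k : ℕ) _ => (k : ZMod p) ^ 2) ?_ ?_ ?_ ?_
  · intro k hk
    have hk0 : (k : ZMod p) ≠ 0 := by
      intro h
      rw [ZMod.natCast_eq_zero_iff] at h
      rw [Finset.mem_Icc] at hk
      have := Nat.le_of_dvd (by omega) h
      omega
    rw [mem_Q, sq, chi_mul]
    rcases chi_dichotomy hk0 with h | h <;> simp [h]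
  · intro a ha b hb h
    have h' : (a : ZMod p) = b ∨ (a : ZMod p) = -b := sq_eq_sq_iff_eq_or_eq_neg.1 h
    rcases h' with h' | h'
    · exact (cast_inj_half hodd ha hb).1 h'
    · exact absurd h' (cast_inj_half hodd ha hb).2
  · intro b hb
    rw [mem_Q] at hb
    have hb0 : b ≠ 0 := by
      intro h; rw [h, chi_eq_zero.2 rfl] at hb; norm_num at hb
    obtain ⟨c, hc⟩ := (quadraticChar_one_iff_isSquare hb0).1 hb
    have hc0 : c ≠ 0 := by
      intro h; rw [h, mul_zero] at hc; exact hb0 hc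
    obtain ⟨r, hr, h | h⟩ := exists_half hodd hc0
    · exact ⟨r, hr, by rw [h, hc, sq]⟩
    · exact ⟨r, hr, by rw [hc, ← h]; ring⟩
  · intro a _
    rfl

lemma card_Q (hodd : p % 2 = 1) : (Q p 1).card = (p - 1) / 2 := by
  have h := prod_sq (p := p) hodd (M := Multiplicative ℕ) (fun _ => Multiplicative.ofAdd 1)
  simp only [Finset.prod_const, Nat.card_Icc] at h
  have h2 := congrArg Multiplicative.toAdd h
  simpa using h2.symm

lemma card_H (hodd : p % 2 = 1) (hm : chi p (-1) = 1) : 2 * (H p).card = (p - 1) / 2 := by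
  rw [← card_Q hodd]
  have h := prod_Q_half (p := p) hodd hm (M := Multiplicative ℕ) (fun _ => Multiplicative.ofAdd 1)
  simp only [Finset.prod_const] at h
  have h2 := congrArg Multiplicative.toAdd h
  simp at h2
  omega

/-- the symmetrised product -/
noncomputable def s (p : ℕ) [Fact p.Prime] (x : ℂ) : ℂ :=
  ∏ r ∈ H p, (x + x⁻¹ - (e p r + e p (-r)))

lemma P_eq_s (hodd : p % 2 = 1) (hm : chi p (-1) = 1) {x : ℂ} (hx : x ≠ 0) :
    P p 1 x = x ^ (H p).card * s p x := by
  rw [P, prod_Q_half hodd hm, s, ← Finset.prod_const, ← Finset.prod_mul_distrib]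
  refine Finset.prod_congr rfl ?_
  intro r _
  have h1 := e_mul_neg (p := p) (r : ZMod p)
  have h2 : x * x⁻¹ = 1 := mul_inv_cancel₀ hx
  linear_combination h1 - h2

lemma s_inv (x : ℂ) : s p x⁻¹ = s p x := by
  simp only [s, inv_inv, add_comm]

end Pool.Agent.Lib.MP_10d431_nt
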