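import Pool.Agent.Lib.MP_10d431_nt.Basic

namespace Pool.Agent.Lib.MP_10d431_nt

open Finset

variable {p : ℕ} [hp : Fact p.Prime]

lemma legendre_five (h : p % 40 = 21 ∨ p % 40 = 29) : chi p 5 = 1 := by
  have h25 : ((2 : ℤ) : ZMod 5) ≠ 0 := by decide
  have : Fact (Nat.Prime 5) := ⟨by norm_num⟩
  have h1 := chi_natCast (p := p) 5
  push_cast at h1
  rw [h1]
  have h2 := legendreSym.quadratic_reciprocity_one_mod_four (p := 5) (q := p) (by norm_num)
    (by omega)
  push_cast at h2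
  rw [h2, legendreSym.mod]
  rcases h with h | h
  · have : (p : ℤ) % ((5 : ℕ) : ℤ) = 1 := by push_cast; omega
    rw [this, legendreSym.at_one]
  · have : (p : ℤ) % ((5 : ℕ) : ℤ) = 2 ^ 2 := by push_cast; omega
    rw [this, legendreSym.sq_one' 5 h25]

lemma legendre_two (h : p % 40 = 21 ∨ p % 40 = 29) : chi p 2 = -1 := by
  have h1 := chi_natCast (p := p) 2
  push_cast at h1
  rw [h1, legendreSym.at_two (by omega), ZMod.χ₈_nat_eq_if_mod_eight]
  have : p % 8 = 5 := by omega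
  have h' : p % 2 = 1 := by omega
  simp [this, h']

lemma legendre_neg_one (h : p % 40 = 21 ∨ p % 40 = 29) : chi p (-1) = 1 := by
  have h1 := chi_intCast (p := p) (-1)
  push_cast at h1
  rw [h1, legendreSym.at_neg_one (by omega), ZMod.χ₄_nat_one_mod_four (by omega)]

lemma s_sq (h : p % 40 = 21 ∨ p % 40 = 29) {η : ℂ} (hη : IsPrimitiveRoot η 5) :
    (s p η * s p (η ^ 2)) ^ 2 = 1 := by
  have hodd : p % 2 = 1 := by omega
  have hm := legendre_neg_one h
  have h0 : η ≠ 0 := hη.ne_zero (by norm_num)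
  have hη5 : η ^ 5 = 1 := hη.pow_eq_one
  have h1 := P_five (legendre_five h) hη
  rw [P_eq_s hodd hm h0, P_eq_s hodd hm (pow_ne_zero 2 h0), P_eq_s hodd hm (pow_ne_zero 3 h0),
    P_eq_s hodd hm (pow_ne_zero 4 h0)] at h1
  have e4 : s p (η ^ 4) = s p η := by
    rw [← s_inv η]; congr 1
    exact eq_inv_of_mul_eq_one_left (by linear_combination hη5)
  have e3 : s p (η ^ 3) = s p (η ^ 2) := by
    rw [← s_inv (η ^ 2)]; congr 1
    exact eq_inv_of_mul_eq_one_left (by linear_combination hη5)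
  rw [e4, e3] at h1
  set m := (H p).card
  have h10 : η ^ m * (η ^ 2) ^ m * (η ^ 3) ^ m * (η ^ 4) ^ m = 1 := by
    rw [← mul_pow, ← mul_pow, ← mul_pow]
    have : η * η ^ 2 * η ^ 3 * η ^ 4 = 1 := by linear_combination (η ^ 5 + 1) * hη5
    rw [this, one_pow]
  linear_combination h1 - (s p η * s p (η ^ 2)) ^ 2 * h10

lemma s_triple (h : p % 40 = 21 ∨ p % 40 = 29) {η : ℂ} (hη : IsPrimitiveRoot η 5) :
    s p η * s p (η ^ 2) * s p (-η) = if p % 40 = 21 then -1 else 1 := by
  have hodd : p % 2 = 1 := by omega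
  have hm := legendre_neg_one h
  have h0 : η ≠ 0 := hη.ne_zero (by norm_num)
  have hη5 : η ^ 5 = 1 := hη.pow_eq_one
  have hc := card_H hodd hm
  have hev : Even (Q p 1).card := by
    rw [card_Q hodd, ← hc]; exact even_two_mul _
  have h1 := P_mul_neg (legendre_two h) hev η
  have h2 := P_mul_P (p := p) (η ^ 2)
  rw [← h1, P_eq_s hodd hm h0, P_eq_s hodd hm (pow_ne_zero 2 h0),
    P_eq_s hodd hm (neg_ne_zero.2 h0)] at h2
  set m := (H p).card
  have hmodd : Odd m := by rw [Nat.odd_iff]; omega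
  rw [hmodd.neg_pow] at h2
  have hpm : p = 4 * m + 1 := by omega
  have hp2 : (η ^ 2) ^ p = (η ^ m) ^ 8 * η ^ 2 := by
    conv_lhs => rw [hpm]
    ring
  have hm2 : (η ^ 2) ^ m = (η ^ m) ^ 2 := by ring
  rw [hp2, hm2] at h2
  split_ifs with h21
  · have hk : η ^ m = 1 := by
      obtain ⟨k, hk⟩ : ∃ k, m = 5 * k := ⟨m / 5, by omega⟩
      rw [hk, pow_mul, hη5, one_pow]
    rw [hk] at h2
    have hne : η ^ 2 - 1 ≠ 0 := by
      rw [sub_ne_zero]
      exact hη.pow_ne_one_of_pos_of_lt (by norm_num) (by norm_num)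
    apply mul_right_cancel₀ hne
    linear_combination -h2
  · have hk : η ^ m = η ^ 2 := by
      obtain ⟨k, hk⟩ : ∃ k, m = 5 * k + 2 := ⟨m / 5, by omega⟩
      rw [hk, pow_add, pow_mul, hη5, one_pow, one_mul]
    rw [hk] at h2
    have hne : η ^ 3 - 1 ≠ 0 := by
      rw [sub_ne_zero]
      exact hη.pow_ne_one_of_pos_of_lt (by norm_num) (by norm_num)
    apply mul_right_cancel₀ hne
    linear_combination h2 + (s p η * s p (η ^ 2) * s p (-η) * (η ^ 5 + 1 - η ^ 3)
      + η ^ 3 * (η ^ 10 + η ^ 5 + 1)) * hη5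

lemma s_neg_sq (h : p % 40 = 21 ∨ p % 40 = 29) {η : ℂ} (hη : IsPrimitiveRoot η 5) :
    s p (-η) ^ 2 = 1 := by
  have h1 := s_sq h hη
  have h2 := s_triple h hη
  have h3 : (s p η * s p (η ^ 2) * s p (-η)) ^ 2 = 1 := by
    rw [h2]; split_ifs <;> norm_num
  rw [mul_pow, h1, one_mul] at h3
  exact h3

lemma s_neg_pow_two (h : p % 40 = 21 ∨ p % 40 = 29) {η : ℂ} (hη : IsPrimitiveRoot η 5) :
    s p (-η ^ 2) = s p (-η) := by
  have hη5 : η ^ 5 = 1 := hη.pow_eq_one
  have h1 := s_sq h hη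
  have h2 := s_triple h hη
  have h3 := s_triple h (hη.pow_of_coprime 2 (by norm_num))
  have e4 : s p ((η ^ 2) ^ 2) = s p η := by
    rw [← s_inv η]; congr 1
    exact eq_inv_of_mul_eq_one_left (by linear_combination hη5)
  rw [e4, ← h2] at h3
  linear_combination (s p η * s p (η ^ 2)) * h3 - (s p (-η ^ 2) - s p (-η)) * h1

lemma neg_prim {ζ : ℂ} (hζ : IsPrimitiveRoot ζ 10) : ζ ^ 5 = -1 ∧ IsPrimitiveRoot (-ζ) 5 := by
  have h5 : ζ ^ 5 = -1 :=
    (hζ.pow (b := 2) (by norm_num) (by norm_num)).eq_neg_one_of_two_right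
  refine ⟨h5, ?_⟩
  have h2 : IsPrimitiveRoot (ζ ^ 2) 5 := hζ.pow (by norm_num) (by norm_num)
  have h3 := h2.pow_of_coprime 3 (by norm_num)
  have : (ζ ^ 2) ^ 3 = -ζ := by linear_combination ζ * h5
  rwa [this] at h3

lemma s_eq_of_prim (h : p % 40 = 21 ∨ p % 40 = 29) {ζ ξ : ℂ} (hζ : IsPrimitiveRoot ζ 10)
    (hξ : IsPrimitiveRoot ξ 10) : s p ζ = s p ξ := by
  have h1 := (neg_prim hζ).2
  have hη := (neg_prim hξ).2
  set η := -ξ with hηdef
  have hξη : ξ = -η := by rw [hηdef, neg_neg]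
  have hη5 : η ^ 5 = 1 := hη.pow_eq_one
  obtain ⟨i, hi, hi'⟩ := hη.eq_pow_of_pow_eq_one h1.pow_eq_one
  have hζi : ζ = -η ^ i := by rw [hi', neg_neg]
  have a2 := s_neg_pow_two h hη
  have hη2 := hη.pow_of_coprime 2 (by norm_num)
  have a4 := s_neg_pow_two h hη2
  have a8 := s_neg_pow_two h (hη2.pow_of_coprime 2 (by norm_num))
  rw [hζi, hξη]
  interval_cases i
  · exfalso
    have : -ζ = 1 := by rw [← hi', pow_zero]
    rw [this] at h1
    exact absurd (h1.unique IsPrimitiveRoot.one) (by norm_num)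
  · rw [pow_one]
  · exact a2
  · have : η ^ 3 = ((η ^ 2) ^ 2) ^ 2 := by linear_combination (-η ^ 3) * hη5
    rw [this, a8, a4, a2]
  · have : η ^ 4 = (η ^ 2) ^ 2 := by ring
    rw [this, a4, a2]

lemma exp_add_exp_neg (t : ℝ) :
    Complex.exp (t * Complex.I) + (Complex.exp (t * Complex.I))⁻¹ = ((2 * Real.cos t : ℝ) : ℂ) := by
  rw [← Complex.exp_neg]
  push_cast
  rw [Complex.cos, neg_mul]
  ring

lemma s_sign (h : p % 40 = 21 ∨ p % 40 = 29) :
    s p (Complex.exp (2 * Real.pi * Complex.I / (10 : ℕ))) =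
      (-1) ^ ((H p).filter (fun r => 10 * r < p)).card := by
  have hprim : IsPrimitiveRoot (Complex.exp (2 * Real.pi * Complex.I / (10 : ℕ))) 10 :=
    Complex.isPrimitiveRoot_exp 10 (by norm_num)
  have hsq := s_neg_sq h (neg_prim hprim).2
  rw [neg_neg] at hsq
  have hp0 : (0 : ℝ) < p := by exact_mod_cast hp.out.pos
  have hpi := Real.pi_pos
  have hreal : s p (Complex.exp (2 * Real.pi * Complex.I / (10 : ℕ))) =
      ((∏ r ∈ H p, (2 * Real.cos (2 * Real.pi / 10) - 2 * Real.cos (2 * Real.pi * r / p)) : ℝ) : ℂ) := by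
    rw [s, Complex.ofReal_prod]
    refine Finset.prod_congr rfl ?_
    intro r _
    have h1 : (2 * Real.pi * Complex.I / (10 : ℕ) : ℂ) = ((2 * Real.pi / 10 : ℝ) : ℂ) * Complex.I := by
      push_cast; ring
    have h2 : e p (r : ZMod p) = Complex.exp (((2 * Real.pi * r / p : ℝ) : ℂ) * Complex.I) := by
      rw [e_natCast]; congr 1; push_cast; ring
    have h3 : e p (-(r : ZMod p)) = (e p (r : ZMod p))⁻¹ :=
      eq_inv_of_mul_eq_one_right (e_mul_neg _)
    rw [h1, h3, h2, exp_add_exp_neg, exp_add_exp_neg, Complex.ofReal_sub]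
  set y : ℝ := ∏ r ∈ H p, (2 * Real.cos (2 * Real.pi / 10) - 2 * Real.cos (2 * Real.pi * r / p))
    with hy
  rw [hreal] at hsq ⊢
  have hsq' : y ^ 2 = 1 := by exact_mod_cast hsq
  set c := ((H p).filter (fun r => 10 * r < p)).card with hc
  have hpos : 0 < (-1 : ℝ) ^ c * y := by
    have h1 : (-1 : ℝ) ^ c = ∏ r ∈ H p, (if 10 * r < p then (-1 : ℝ) else 1) := by
      rw [Finset.prod_ite, Finset.prod_const, Finset.prod_const, one_pow, mul_one]
    rw [h1, hy, ← Finset.prod_mul_distrib]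
    refine Finset.prod_pos ?_
    intro r hr
    simp only [H, Finset.mem_filter, Finset.mem_Icc] at hr
    obtain ⟨⟨hr1, hr2⟩, _⟩ := hr
    have hr0 : (0 : ℝ) ≤ 2 * Real.pi * r / p := by positivity
    have hrpi : 2 * Real.pi * r / p ≤ Real.pi := by
      rw [div_le_iff₀ hp0]
      have : (2 * r : ℝ) ≤ p := by exact_mod_cast (by omega : 2 * r ≤ p)
      nlinarith
    split_ifs with hlt
    · have : Real.cos (2 * Real.pi / 10) < Real.cos (2 * Real.pi * r / p) := by
        apply Real.cos_lt_cos_of_nonneg_of_le_pi hr0 (by linarith)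
        rw [div_lt_div_iff₀ hp0 (by norm_num)]
        have : (10 * r : ℝ) < p := by exact_mod_cast hlt
        nlinarith
      linarith
    · have : Real.cos (2 * Real.pi * r / p) < Real.cos (2 * Real.pi / 10) := by
        apply Real.cos_lt_cos_of_nonneg_of_le_pi (by positivity) hrpi
        rw [div_lt_div_iff₀ (by norm_num) hp0]
        have : (p : ℝ) < 10 * r := by exact_mod_cast (by omega : p < 10 * r)
        nlinarith
      linarith
  have hc2 : ((-1 : ℝ) ^ c) ^ 2 = 1 := by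
    rw [← pow_mul, mul_comm, pow_mul]; norm_num
  have hprod : (-1 : ℝ) ^ c * y = 1 := by
    have : ((-1 : ℝ) ^ c * y) ^ 2 = 1 := by rw [mul_pow, hc2, hsq', one_mul]
    nlinarith
  have hfin : y = (-1 : ℝ) ^ c := by
    linear_combination ((-1 : ℝ) ^ c) * hprod - y * hc2
  rw [hfin]
  push_cast
  rfl

lemma count_parity (h : p % 40 = 21 ∨ p % 40 = 29) :
    (-1 : ℂ) ^ ((H p).filter (fun r => 10 * r < p)).card =
      -(-1) ^ ((Finset.Icc 1 (p / 10 + 1)).filter (fun k : ℕ => legendreSym p k = -1)).card := by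
  have hA : (H p).filter (fun r => 10 * r < p) =
      (Finset.Icc 1 (p / 10)).filter (fun k : ℕ => ¬ legendreSym p k = -1) := by
    ext r
    simp only [H, Finset.mem_filter, Finset.mem_Icc, chi_natCast]
    constructor
    · rintro ⟨⟨⟨h1, _⟩, h3⟩, h4⟩
      exact ⟨⟨h1, by omega⟩, by rw [h3]; norm_num⟩
    · rintro ⟨⟨h1, h2⟩, h3⟩
      refine ⟨⟨⟨h1, by omega⟩, ?_⟩, by omega⟩
      have hr0 : (r : ZMod p) ≠ 0 := by
        intro h0
        rw [ZMod.natCast_eq_zero_iff] at h0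
        have := Nat.le_of_dvd (by omega) h0
        omega
      have := chi_dichotomy hr0
      rw [chi_natCast] at this
      tauto
  have hlast : legendreSym p ((p / 10 + 1 : ℕ) : ℤ) = -1 := by
    rw [← chi_natCast]
    have h10 : chi p 10 = -1 := by
      have : (10 : ZMod p) = 2 * 5 := by norm_num
      rw [this, chi_mul, legendre_two h, legendre_five h]; norm_num
    have hprod : chi p (10 * ((p / 10 + 1 : ℕ) : ZMod p)) = 1 := by
      rcases h with h | h
      · have : (10 * ((p / 10 + 1 : ℕ) : ZMod p)) = 3 * 3 := by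
          have h1 : 10 * (p / 10 + 1) = p + 9 := by omega
          have h2 := congrArg (Nat.cast : ℕ → ZMod p) h1
          push_cast at h2 ⊢
          rw [h2, ZMod.natCast_self]; norm_num
        rw [this, chi_mul]
        have h3 : (3 : ZMod p) ≠ 0 := by
          intro h0
          have : ((3 : ℕ) : ZMod p) = 0 := by exact_mod_cast h0
          rw [ZMod.natCast_eq_zero_iff] at this
          have := Nat.le_of_dvd (by omega) this
          omega
        rcases chi_dichotomy h3 with h | h <;> simp [h]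
      · have : (10 * ((p / 10 + 1 : ℕ) : ZMod p)) = 1 * 1 := by
          have h1 : 10 * (p / 10 + 1) = p + 1 := by omega
          have h2 := congrArg (Nat.cast : ℕ → ZMod p) h1
          push_cast at h2 ⊢
          rw [h2, ZMod.natCast_self]; norm_num
        rw [this, chi_mul]
        rcases chi_dichotomy (one_ne_zero : (1 : ZMod p) ≠ 0) with h | h <;> simp [h]
    rw [chi_mul, h10] at hprod
    linarith
  have hB : (Finset.Icc 1 (p / 10 + 1)).filter (fun k : ℕ => legendreSym p k = -1) =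
      insert (p / 10 + 1) ((Finset.Icc 1 (p / 10)).filter (fun k : ℕ => legendreSym p k = -1)) := by
    ext r
    simp only [Finset.mem_filter, Finset.mem_Icc, Finset.mem_insert]
    constructor
    · rintro ⟨⟨h1, h2⟩, h3⟩
      by_cases hr : r = p / 10 + 1
      · exact Or.inl hr
      · exact Or.inr ⟨⟨h1, by omega⟩, h3⟩
    · rintro (hr | ⟨⟨h1, h2⟩, h3⟩)
      · rw [hr]; exact ⟨⟨by omega, le_rfl⟩, hlast⟩
      · exact ⟨⟨h1, by omega⟩, h3⟩
  rw [hA, hB, Finset.card_insert_of_notMem (by simp)]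
  have hsum := Finset.card_filter_add_card_filter_not (s := Finset.Icc 1 (p / 10))
    (fun k : ℕ => legendreSym p k = -1)
  rw [Nat.card_Icc] at hsum
  set a := ((Finset.Icc 1 (p / 10)).filter (fun k : ℕ => legendreSym p k = -1)).card
  set b := ((Finset.Icc 1 (p / 10)).filter (fun k : ℕ => ¬ legendreSym p k = -1)).card
  have hev : Even (a + b) := by rw [Nat.even_iff]; omega
  have h1 : (-1 : ℂ) ^ a * (-1) ^ b = 1 := by rw [← pow_add, hev.neg_one_pow]
  have h2 : (-1 : ℂ) ^ a * (-1) ^ a = 1 := by rw [← pow_add, (Even.add_self a).neg_one_pow]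
  rw [pow_succ]
  linear_combination ((-1 : ℂ) ^ a) * h1 - ((-1 : ℂ) ^ b) * h2

theorem main (h : p % 40 = 21 ∨ p % 40 = 29) {ζ : ℂ} (hζ : IsPrimitiveRoot ζ 10) :
    ∏ k ∈ Finset.Icc 1 ((p - 1) / 2),
        (ζ - Complex.exp (2 * Real.pi * Complex.I * (k : ℂ) ^ 2 / p)) =
      -ζ ^ ((p - 1) / 4) *
        (-1) ^ ((Finset.Icc 1 (p / 10 + 1)).filter (fun k : ℕ => legendreSym p k = -1)).card := by
  have hodd : p % 2 = 1 := by omega
  have hm := legendre_neg_one h
  have h1 : ∏ k ∈ Finset.Icc 1 ((p - 1) / 2),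
      (ζ - Complex.exp (2 * Real.pi * Complex.I * (k : ℂ) ^ 2 / p)) = P p 1 ζ := by
    rw [P, ← prod_sq hodd]
    refine Finset.prod_congr rfl ?_
    intro k _
    have := e_natCast (p := p) (k ^ 2)
    push_cast at this
    rw [this]
  have hc := card_H hodd hm
  have hc' : (H p).card = (p - 1) / 4 := by omega
  rw [h1, P_eq_s hodd hm (hζ.ne_zero (by norm_num)),
    s_eq_of_prim h hζ (Complex.isPrimitiveRoot_exp 10 (by norm_num)), s_sign h, count_parity h, hc']
  ring

end Pool.Agent.Lib.MP_10d431_nt
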