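import Pool.Agent.Lib.MP_10d431_nt.Main

namespace Pool.Agent.Lib.MP_10d431_nt

open Finset

variable {p : ℕ} [hp : Fact p.Prime]

lemma nr_five (h : p % 40 = 13 ∨ p % 40 = 37) : chi p 5 = -1 := by
  have h3 : ¬ IsSquare ((3 : ℤ) : ZMod 5) := by decide
  have h2' : ¬ IsSquare ((2 : ℤ) : ZMod 5) := by decide
  have : Fact (Nat.Prime 5) := ⟨by norm_num⟩
  have h1 := chi_natCast (p := p) 5
  push_cast at h1
  rw [h1]
  have h2 := legendreSym.quadratic_reciprocity_one_mod_four (p := 5) (q := p) (by norm_num)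
    (by omega)
  push_cast at h2
  rw [h2, legendreSym.mod]
  rcases h with h | h
  · have : (p : ℤ) % ((5 : ℕ) : ℤ) = 3 := by push_cast; omega
    rw [this, legendreSym.eq_neg_one_iff]
    exact h3
  · have : (p : ℤ) % ((5 : ℕ) : ℤ) = 2 := by push_cast; omega
    rw [this, legendreSym.eq_neg_one_iff]
    exact h2'

lemma nr_two (h : p % 40 = 13 ∨ p % 40 = 37) : chi p 2 = -1 := by
  have h1 := chi_natCast (p := p) 2
  push_cast at h1
  rw [h1, legendreSym.at_two (by omega), ZMod.χ₈_nat_eq_if_mod_eight]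
  have : p % 8 = 5 := by omega
  have h' : p % 2 = 1 := by omega
  simp [this, h']

lemma nr_neg_one (h : p % 40 = 13 ∨ p % 40 = 37) : chi p (-1) = 1 := by
  have h1 := chi_intCast (p := p) (-1)
  push_cast at h1
  rw [h1, legendreSym.at_neg_one (by omega), ZMod.χ₄_nat_one_mod_four (by omega)]

lemma P_one_mul_P_one : P p 1 1 * P p (-1) 1 = p := by
  have hc1 : Continuous fun x : ℂ => P p 1 x * P p (-1) x := by
    unfold P; fun_prop
  have hc2 : Continuous fun x : ℂ => ∑ i ∈ range p, x ^ i := by fun_prop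
  have he := Continuous.ext_on (dense_compl_singleton (1 : ℂ)) hc1 hc2 (by
    intro x hx
    have hx1 : x - 1 ≠ 0 := sub_ne_zero.2 hx
    apply mul_right_cancel₀ hx1
    show P p 1 x * P p (-1) x * (x - 1) = (∑ i ∈ range p, x ^ i) * (x - 1)
    rw [P_mul_P, geom_sum_mul])
  have := congrFun he 1
  simpa using this

/-- the norm relation for `5` when `5` is a nonresidue -/
lemma P_five_nr (h5 : chi p 5 = -1) {η : ℂ} (hη : IsPrimitiveRoot η 5) :
    P p 1 1 * (P p 1 η * P p 1 (η ^ 2) * P p 1 (η ^ 3) * P p 1 (η ^ 4)) = P p (-1) 1 := by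
  have h50 : (5 : ZMod p) ≠ 0 := by
    intro h
    rw [chi_eq_zero.2 h] at h5
    norm_num at h5
  have h := prod_Q_mul h50 1 (fun a => 1 - e p a)
  rw [h5, mul_one] at h
  have hη5 : η ^ 5 = 1 := hη.pow_eq_one
  have hs : 1 + η + η ^ 2 + η ^ 3 + η ^ 4 = 0 := by
    have := hη.geom_sum_eq_zero (by norm_num)
    simpa [Finset.sum_range_succ] using this
  conv_rhs => rw [P, ← h]
  simp only [P, ← Finset.prod_mul_distrib]
  refine Finset.prod_congr rfl ?_
  intro a _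
  have := e_nsmul 5 a
  push_cast at this
  rw [this]
  set y := e p a
  have key : (η - y) * (η ^ 2 - y) * (η ^ 3 - y) * (η ^ 4 - y) = 1 + y + y ^ 2 + y ^ 3 + y ^ 4 := by
    linear_combination (η ^ 5 + 1 - y * (η + η ^ 2 + η ^ 3 + η ^ 4) + y ^ 2 * (2 + η + η ^ 2)) * hη5 + (- y + y ^ 2 - y ^ 3) * hs
  rw [key]; ring

lemma nr_sq (h : p % 40 = 13 ∨ p % 40 = 37) {η : ℂ} (hη : IsPrimitiveRoot η 5) :
    (P p 1 1 * (s p η * s p (η ^ 2))) ^ 2 = p := by
  have hodd : p % 2 = 1 := by omega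
  have hm := nr_neg_one h
  have h0 : η ≠ 0 := hη.ne_zero (by norm_num)
  have hη5 : η ^ 5 = 1 := hη.pow_eq_one
  have h1 := P_five_nr (nr_five h) hη
  rw [P_eq_s hodd hm h0, P_eq_s hodd hm (pow_ne_zero 2 h0), P_eq_s hodd hm (pow_ne_zero 3 h0),
    P_eq_s hodd hm (pow_ne_zero 4 h0)] at h1
  have e4 : s p (η ^ 4) = s p η := by
    rw [← s_inv η]; congr 1
    exact eq_inv_of_mul_eq_one_left (by linear_combination hη5)
  have e3 : s p (η ^ 3) = s p (η ^ 2) := by
    rw [← s_inv (η ^ 2)]; congr 1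
    exact eq_inv_of_mul_eq_one_left (by linear_combination hη5)
  rw [e4, e3] at h1
  set m := (H p).card
  have h10 : η ^ m * (η ^ 2) ^ m * (η ^ 3) ^ m * (η ^ 4) ^ m = 1 := by
    rw [← mul_pow, ← mul_pow, ← mul_pow]
    have : η * η ^ 2 * η ^ 3 * η ^ 4 = 1 := by linear_combination (η ^ 5 + 1) * hη5
    rw [this, one_pow]
  have h2 := P_one_mul_P_one (p := p)
  rw [← h1] at h2
  linear_combination h2 - (P p 1 1 * (s p η * s p (η ^ 2))) ^ 2 * h10

lemma nr_triple (h : p % 40 = 13 ∨ p % 40 = 37) {η : ℂ} (hη : IsPrimitiveRoot η 5) :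
    s p η * s p (η ^ 2) * s p (-η) = (if p % 40 = 13 then 1 else -1) * (η + η ^ 4) := by
  have hodd : p % 2 = 1 := by omega
  have hm := nr_neg_one h
  have h0 : η ≠ 0 := hη.ne_zero (by norm_num)
  have hη5 : η ^ 5 = 1 := hη.pow_eq_one
  have hc := card_H hodd hm
  have hev : Even (Q p 1).card := by
    rw [card_Q hodd, ← hc]; exact even_two_mul _
  have h1 := P_mul_neg (nr_two h) hev η
  have h2 := P_mul_P (p := p) (η ^ 2)
  rw [← h1, P_eq_s hodd hm h0, P_eq_s hodd hm (pow_ne_zero 2 h0),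
    P_eq_s hodd hm (neg_ne_zero.2 h0)] at h2
  set m := (H p).card
  have hmodd : Odd m := by rw [Nat.odd_iff]; omega
  rw [hmodd.neg_pow] at h2
  have hpm : p = 4 * m + 1 := by omega
  have hp2 : (η ^ 2) ^ p = (η ^ m) ^ 8 * η ^ 2 := by
    conv_lhs => rw [hpm]
    ring
  have hm2 : (η ^ 2) ^ m = (η ^ m) ^ 2 := by ring
  rw [hp2, hm2] at h2
  set A := s p η * s p (η ^ 2) * s p (-η) with hA
  have h3 : -(η ^ m) ^ 4 * A * (η ^ 2 - 1) = (η ^ m) ^ 8 * η ^ 2 - 1 := by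
    rw [hA]; linear_combination h2
  have hne : η ^ 2 - 1 ≠ 0 := by
    rw [sub_ne_zero]
    exact hη.pow_ne_one_of_pos_of_lt (by norm_num) (by norm_num)
  split_ifs with h13
  · have hk : η ^ m = η ^ 3 := by
      obtain ⟨k, hk⟩ : ∃ k, m = 5 * k + 3 := ⟨m / 5, by omega⟩
      rw [hk, pow_add, pow_mul, hη5, one_pow, one_mul]
    have a4 : (η ^ 3) ^ 4 = η ^ 2 := by linear_combination (η ^ 7 + η ^ 2) * hη5
    have a8 : (η ^ 3) ^ 8 * η ^ 2 = η := by
      linear_combination (η ^ 21 + η ^ 16 + η ^ 11 + η ^ 6 + η) * hη5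
    rw [hk, a4, a8] at h3
    apply mul_left_cancel₀ (mul_ne_zero (pow_ne_zero 2 h0) hne)
    have hs : 1 + η + η ^ 2 + η ^ 3 + η ^ 4 = 0 := by
      have := hη.geom_sum_eq_zero (by norm_num)
      simpa [Finset.sum_range_succ] using this
    linear_combination -h3 - (η ^ 3 - η + 1) * hη5
  · have hk : η ^ m = η ^ 4 := by
      obtain ⟨k, hk⟩ : ∃ k, m = 5 * k + 4 := ⟨m / 5, by omega⟩
      rw [hk, pow_add, pow_mul, hη5, one_pow, one_mul]
    have a4 : (η ^ 4) ^ 4 = η := by linear_combination (η ^ 11 + η ^ 6 + η) * hη5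
    have a8 : (η ^ 4) ^ 8 * η ^ 2 = η ^ 4 := by
      linear_combination (η ^ 29 + η ^ 24 + η ^ 19 + η ^ 14 + η ^ 9 + η ^ 4) * hη5
    rw [hk, a4, a8] at h3
    apply mul_left_cancel₀ (mul_ne_zero h0 hne)
    linear_combination -h3 + (η ^ 2 - 1) * hη5

/-- the quotient `s(-η) / (η + η⁴)` does not depend on the primitive fifth root `η` -/
lemma nr_step (h : p % 40 = 13 ∨ p % 40 = 37) {η : ℂ} (hη : IsPrimitiveRoot η 5) :
    s p (-η ^ 2) * (η + η ^ 4) = s p (-η) * (η ^ 2 + (η ^ 2) ^ 4) := by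
  have hη5 : η ^ 5 = 1 := hη.pow_eq_one
  have h1 := nr_sq h hη
  have h2 := nr_triple h hη
  have h3 := nr_triple h (hη.pow_of_coprime 2 (by norm_num))
  have e4 : s p ((η ^ 2) ^ 2) = s p η := by
    rw [← s_inv η]; congr 1
    exact eq_inv_of_mul_eq_one_left (by linear_combination hη5)
  rw [e4] at h3
  have hA : s p η * s p (η ^ 2) ≠ 0 := by
    intro h0
    rw [h0] at h1
    have : (p : ℂ) = 0 := by rw [← h1]; ring
    exact hp.out.ne_zero (by exact_mod_cast this)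
  apply mul_left_cancel₀ hA
  linear_combination (η + η ^ 4) * h3 - (η ^ 2 + (η ^ 2) ^ 4) * h2

lemma five_ne {η : ℂ} (hη : IsPrimitiveRoot η 5) : η + η ^ 4 ≠ 0 := by
  have hη5 : η ^ 5 = 1 := hη.pow_eq_one
  have hs : 1 + η + η ^ 2 + η ^ 3 + η ^ 4 = 0 := by
    have := hη.geom_sum_eq_zero (by norm_num)
    simpa [Finset.sum_range_succ] using this
  intro h0
  have : (1 : ℂ) = 0 := by
    linear_combination (η + η ^ 4 + 1) * h0 - hs - (η ^ 3 + 2) * hη5
  norm_num at this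

lemma nr_eq_of_prim (h : p % 40 = 13 ∨ p % 40 = 37) {η ξ : ℂ} (hη : IsPrimitiveRoot η 5)
    (hξ : IsPrimitiveRoot ξ 5) : s p (-ξ) * (η + η ^ 4) = s p (-η) * (ξ + ξ ^ 4) := by
  have hη5 : η ^ 5 = 1 := hη.pow_eq_one
  obtain ⟨i, hi, hi'⟩ := hη.eq_pow_of_pow_eq_one hξ.pow_eq_one
  have a2 := nr_step h hη
  have e4 : s p (-η ^ 4) = s p (-η) := by
    rw [← s_inv (-η)]; congr 1
    exact eq_inv_of_mul_eq_one_left (by linear_combination hη5)
  have e3 : s p (-η ^ 3) = s p (-η ^ 2) := by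
    rw [← s_inv (-η ^ 2)]; congr 1
    exact eq_inv_of_mul_eq_one_left (by linear_combination hη5)
  rw [← hi']
  interval_cases i
  · exfalso
    rw [pow_zero] at hi'
    rw [← hi'] at hξ
    exact absurd (hξ.unique IsPrimitiveRoot.one) (by norm_num)
  · rw [pow_one]
  · exact a2
  · rw [e3, a2]
    linear_combination (s p (-η) * (-η ^ 7 - η ^ 2 + η ^ 3)) * hη5
  · rw [e4]
    linear_combination (s p (-η) * (-η ^ 11 - η ^ 6 - η)) * hη5

lemma s_real (t : ℝ) : s p (Complex.exp (t * Complex.I)) =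
    ((∏ r ∈ H p, (2 * Real.cos t - 2 * Real.cos (2 * Real.pi * r / p)) : ℝ) : ℂ) := by
  rw [s, Complex.ofReal_prod]
  refine Finset.prod_congr rfl ?_
  intro r _
  have h2 : e p (r : ZMod p) = Complex.exp (((2 * Real.pi * r / p : ℝ) : ℂ) * Complex.I) := by
    rw [e_natCast]; congr 1; push_cast; ring
  have h3 : e p (-(r : ZMod p)) = (e p (r : ZMod p))⁻¹ :=
    eq_inv_of_mul_eq_one_right (e_mul_neg _)
  rw [h3, h2, exp_add_exp_neg, exp_add_exp_neg, Complex.ofReal_sub]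

lemma sign_real (h : p % 40 = 13 ∨ p % 40 = 37) :
    0 < (-1 : ℝ) ^ ((H p).filter (fun r => 10 * r < p)).card *
      ∏ r ∈ H p, (2 * Real.cos (2 * Real.pi / 10) - 2 * Real.cos (2 * Real.pi * r / p)) := by
  have hp0 : (0 : ℝ) < p := by exact_mod_cast hp.out.pos
  have hpi := Real.pi_pos
  have h1 : (-1 : ℝ) ^ ((H p).filter (fun r => 10 * r < p)).card =
      ∏ r ∈ H p, (if 10 * r < p then (-1 : ℝ) else 1) := by
    rw [Finset.prod_ite, Finset.prod_const, Finset.prod_const, one_pow, mul_one]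
  rw [h1, ← Finset.prod_mul_distrib]
  refine Finset.prod_pos ?_
  intro r hr
  simp only [H, Finset.mem_filter, Finset.mem_Icc] at hr
  obtain ⟨⟨hr1, hr2⟩, _⟩ := hr
  have hr0 : (0 : ℝ) ≤ 2 * Real.pi * r / p := by positivity
  have hrpi : 2 * Real.pi * r / p ≤ Real.pi := by
    rw [div_le_iff₀ hp0]
    have : (2 * r : ℝ) ≤ p := by exact_mod_cast (by omega : 2 * r ≤ p)
    nlinarith
  split_ifs with hlt
  · have : Real.cos (2 * Real.pi / 10) < Real.cos (2 * Real.pi * r / p) := by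
      apply Real.cos_lt_cos_of_nonneg_of_le_pi hr0 (by linarith)
      rw [div_lt_div_iff₀ hp0 (by norm_num)]
      have : (10 * r : ℝ) < p := by exact_mod_cast hlt
      nlinarith
    linarith
  · have : Real.cos (2 * Real.pi * r / p) < Real.cos (2 * Real.pi / 10) := by
      apply Real.cos_lt_cos_of_nonneg_of_le_pi (by positivity) hrpi
      rw [div_lt_div_iff₀ (by norm_num) hp0]
      have : (p : ℝ) < 10 * r := by exact_mod_cast (by omega : p < 10 * r)
      nlinarith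
    linarith

lemma one_real_pos (h : p % 40 = 13 ∨ p % 40 = 37) :
    0 < ∏ r ∈ H p, (2 * Real.cos 0 - 2 * Real.cos (2 * Real.pi * r / p)) := by
  have hp0 : (0 : ℝ) < p := by exact_mod_cast hp.out.pos
  have hpi := Real.pi_pos
  refine Finset.prod_pos ?_
  intro r hr
  simp only [H, Finset.mem_filter, Finset.mem_Icc] at hr
  obtain ⟨⟨hr1, hr2⟩, _⟩ := hr
  have hr0 : (0 : ℝ) < 2 * Real.pi * r / p := by
    have : (0 : ℝ) < r := by exact_mod_cast hr1
    positivity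
  have hrpi : 2 * Real.pi * r / p ≤ Real.pi := by
    rw [div_le_iff₀ hp0]
    have : (2 * r : ℝ) ≤ p := by exact_mod_cast (by omega : 2 * r ≤ p)
    nlinarith
  have := Real.cos_lt_cos_of_nonneg_of_le_pi le_rfl hrpi hr0
  linarith

lemma nr_sign (h : p % 40 = 13 ∨ p % 40 = 37) :
    (Real.sqrt p : ℂ) * s p (Complex.exp ((2 * Real.pi / 10 : ℝ) * Complex.I)) =
      (-1) ^ ((H p).filter (fun r => 10 * r < p)).card *
        (Complex.exp ((2 * Real.pi / 10 : ℝ) * Complex.I) +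
          (Complex.exp ((2 * Real.pi / 10 : ℝ) * Complex.I))⁻¹) * P p 1 1 := by
  have hodd : p % 2 = 1 := by omega
  have hprim : IsPrimitiveRoot (Complex.exp ((2 * Real.pi / 10 : ℝ) * Complex.I)) 10 := by
    have := Complex.isPrimitiveRoot_exp 10 (by norm_num)
    convert this using 2
    push_cast; ring
  set ζ := Complex.exp ((2 * Real.pi / 10 : ℝ) * Complex.I) with hζ
  obtain ⟨h5, hη⟩ := neg_prim hprim
  have h1 := nr_sq h hη
  have h2 := nr_triple h hη
  rw [neg_neg] at h2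
  have hinv : ζ⁻¹ = -ζ ^ 4 := (eq_inv_of_mul_eq_one_right (by linear_combination -h5)).symm
  have hε : (if p % 40 = 13 then (1 : ℂ) else -1) ^ 2 = 1 := by split_ifs <;> norm_num
  have h3 : (p : ℂ) * s p ζ ^ 2 = ((ζ + ζ⁻¹) * P p 1 1) ^ 2 := by
    rw [hinv, ← h1]
    set ε := (if p % 40 = 13 then (1 : ℂ) else -1)
    linear_combination (P p 1 1) ^ 2 * (s p (-ζ) * s p ((-ζ) ^ 2) * s p ζ
      + ε * (-ζ + (-ζ) ^ 4)) * h2 + (P p 1 1) ^ 2 * (-ζ + (-ζ) ^ 4) ^ 2 * hε
  have hP : P p 1 1 =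
      ((∏ r ∈ H p, (2 * Real.cos 0 - 2 * Real.cos (2 * Real.pi * r / p)) : ℝ) : ℂ) := by
    rw [P_eq_s hodd (nr_neg_one h) one_ne_zero, one_pow, one_mul, ← s_real]
    simp
  have hs := s_real (p := p) (2 * Real.pi / 10)
  have hc := exp_add_exp_neg (2 * Real.pi / 10)
  rw [← hζ] at hs hc
  have hy := sign_real h
  have hz := one_real_pos h
  rw [hs, hc, hP] at h3 ⊢
  set y := ∏ r ∈ H p, (2 * Real.cos (2 * Real.pi / 10) - 2 * Real.cos (2 * Real.pi * r / p))
  set z := ∏ r ∈ H p, (2 * Real.cos 0 - 2 * Real.cos (2 * Real.pi * r / p))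
  set c := ((H p).filter (fun r => 10 * r < p)).card
  have h4 : (p : ℝ) * y ^ 2 = (2 * Real.cos (2 * Real.pi / 10) * z) ^ 2 := by exact_mod_cast h3
  have hcos : 0 < Real.cos (2 * Real.pi / 10) :=
    Real.cos_pos_of_mem_Ioo ⟨by linarith [Real.pi_pos], by linarith [Real.pi_pos]⟩
  have hc2 : ((-1 : ℝ) ^ c) ^ 2 = 1 := by
    rw [← pow_mul, mul_comm, pow_mul]; norm_num
  have hp0 : (0 : ℝ) < p := by exact_mod_cast hp.out.pos
  have hsq : Real.sqrt p ^ 2 = p := Real.sq_sqrt hp0.le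
  have h5' : Real.sqrt p * ((-1 : ℝ) ^ c * y) = 2 * Real.cos (2 * Real.pi / 10) * z := by
    apply (pow_left_inj₀ (n := 2) (by positivity) (by positivity) (by norm_num)).1
    rw [← h4, mul_pow, mul_pow, hc2, hsq, one_mul]
  have h6 : Real.sqrt p * y = (-1 : ℝ) ^ c * (2 * Real.cos (2 * Real.pi / 10)) * z := by
    linear_combination (-1 : ℝ) ^ c * h5' - Real.sqrt p * y * hc2
  exact_mod_cast h6

lemma nr_parity (h : p % 40 = 13 ∨ p % 40 = 37) :
    (-1 : ℂ) ^ ((H p).filter (fun r => 10 * r < p)).card =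
      -(-1) ^ ((Finset.Icc 1 (p / 10)).filter (fun k : ℕ => legendreSym p k = -1)).card := by
  have hA : (H p).filter (fun r => 10 * r < p) =
      (Finset.Icc 1 (p / 10)).filter (fun k : ℕ => ¬ legendreSym p k = -1) := by
    ext r
    simp only [H, Finset.mem_filter, Finset.mem_Icc, chi_natCast]
    constructor
    · rintro ⟨⟨⟨h1, _⟩, h3⟩, h4⟩
      exact ⟨⟨h1, by omega⟩, by rw [h3]; norm_num⟩
    · rintro ⟨⟨h1, h2⟩, h3⟩
      refine ⟨⟨⟨h1, by omega⟩, ?_⟩, by omega⟩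
      have hr0 : (r : ZMod p) ≠ 0 := by
        intro h0
        rw [ZMod.natCast_eq_zero_iff] at h0
        have := Nat.le_of_dvd (by omega) h0
        omega
      have := chi_dichotomy hr0
      rw [chi_natCast] at this
      tauto
  rw [hA]
  have hsum := Finset.card_filter_add_card_filter_not (s := Finset.Icc 1 (p / 10))
    (fun k : ℕ => legendreSym p k = -1)
  rw [Nat.card_Icc] at hsum
  set a := ((Finset.Icc 1 (p / 10)).filter (fun k : ℕ => legendreSym p k = -1)).card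
  set b := ((Finset.Icc 1 (p / 10)).filter (fun k : ℕ => ¬ legendreSym p k = -1)).card
  have hev : Odd (a + b) := by rw [Nat.odd_iff]; omega
  have h1 : (-1 : ℂ) ^ a * (-1) ^ b = -1 := by rw [← pow_add, hev.neg_one_pow]
  have h2 : (-1 : ℂ) ^ a * (-1) ^ a = 1 := by rw [← pow_add, (Even.add_self a).neg_one_pow]
  linear_combination ((-1 : ℂ) ^ a) * h1 - ((-1 : ℂ) ^ b) * h2

lemma prod_eq_P (hodd : p % 2 = 1) (x : ℂ) : ∏ k ∈ Finset.Icc 1 ((p - 1) / 2),
    (x - Complex.exp (2 * Real.pi * Complex.I * (k : ℂ) ^ 2 / p)) = P p 1 x := by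
  rw [P, ← prod_sq hodd]
  refine Finset.prod_congr rfl ?_
  intro k _
  have := e_natCast (p := p) (k ^ 2)
  push_cast at this
  rw [this]

theorem nr_main (h : p % 40 = 13 ∨ p % 40 = 37) {ζ : ℂ} (hζ : IsPrimitiveRoot ζ 10) :
    (Real.sqrt p : ℂ) * P p 1 ζ =
      (-1) ^ ((Finset.Icc 1 (p / 10)).filter (fun k : ℕ => legendreSym p k = -1)).card *
        (ζ ^ ((p - 1) / 4) * (ζ ^ 4 - ζ)) * P p 1 1 := by
  have hodd : p % 2 = 1 := by omega
  have hm := nr_neg_one h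
  have hprim : IsPrimitiveRoot (Complex.exp ((2 * Real.pi / 10 : ℝ) * Complex.I)) 10 := by
    have := Complex.isPrimitiveRoot_exp 10 (by norm_num)
    convert this using 2
    push_cast; ring
  have h1 := nr_sign h
  set ξ := Complex.exp ((2 * Real.pi / 10 : ℝ) * Complex.I)
  obtain ⟨h5, hη⟩ := neg_prim hprim
  have hinv : ξ⁻¹ = -ξ ^ 4 := (eq_inv_of_mul_eq_one_right (by linear_combination -h5)).symm
  have h2 := nr_eq_of_prim h hη (neg_prim hζ).2
  rw [neg_neg, neg_neg] at h2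
  have hc := card_H hodd hm
  have hc' : (H p).card = (p - 1) / 4 := by omega
  rw [nr_parity h, hinv] at h1
  rw [P_eq_s hodd hm (hζ.ne_zero (by norm_num)), hc']
  apply mul_right_cancel₀ (five_ne hη)
  linear_combination (Real.sqrt p : ℂ) * ζ ^ ((p - 1) / 4) * h2
    + ζ ^ ((p - 1) / 4) * (-ζ + (-ζ) ^ 4) * h1

end Pool.Agent.Lib.MP_10d431_nt
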