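import Pool.Agent.Lib.MP_10d431_nt.Main

namespace Pool.Agent.Lib.MP_10d431_nt.TenthRootsWithdrawn

/-- `S_p(x) = ∏_{k=1}^{(p-1)/2} (x - e^{2πi k²/p})`, evaluated at the complex number `x`. -/
noncomputable def S (p : ℕ) (x : ℂ) : ℂ :=
  ∏ k ∈ Finset.Icc 1 ((p - 1) / 2), (x - Complex.exp (2 * Real.pi * Complex.I * (k : ℂ) ^ 2 / p))

/-- `n_p(N) = #{k : 1 ≤ k ≤ N, (k/p) = -1}` for a natural number `N`. -/
def n (p : ℕ) [Fact p.Prime] (N : ℕ) : ℕ :=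
  ((Finset.Icc 1 N).filter (fun k : ℕ => legendreSym p k = -1)).card

/-- For every prime `p` and every complex `ζ` of multiplicative order `10`:
if `p ≡ 21 (mod 40)` then `S_p(ζ) = (-1)^{n_p((p+9)/10)}`, and
if `p ≡ 29 (mod 40)` then `S_p(ζ) = (-1)^{n_p((p+1)/10)} ζ²`.
(In each case the division by `10` is exact.) -/
theorem result (p : ℕ) [Fact p.Prime] (ζ : ℂ) (hζ : orderOf ζ = 10) :
    (p % 40 = 21 → S p ζ = (-1) ^ n p ((p + 9) / 10)) ∧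
    (p % 40 = 29 → S p ζ = (-1) ^ n p ((p + 1) / 10) * ζ ^ 2) := by
  have hprim : IsPrimitiveRoot ζ 10 := hζ ▸ IsPrimitiveRoot.orderOf ζ
  have h5 := (Pool.Agent.Lib.MP_10d431_nt.neg_prim hprim).1
  have h10 : ζ ^ 10 = 1 := hprim.pow_eq_one
  constructor
  · intro h
    have h1 : (p + 9) / 10 = p / 10 + 1 := by omega
    obtain ⟨k, hk⟩ : ∃ k, (p - 1) / 4 = 10 * k + 5 := ⟨(p - 1) / 40, by omega⟩
    rw [S, Pool.Agent.Lib.MP_10d431_nt.main (Or.inl h) hprim, n, h1, hk, pow_add, pow_mul, h10, h5]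
    ring
  · intro h
    have h1 : (p + 1) / 10 = p / 10 + 1 := by omega
    obtain ⟨k, hk⟩ : ∃ k, (p - 1) / 4 = 10 * k + (5 + 2) := ⟨(p - 1) / 40, by omega⟩
    rw [S, Pool.Agent.Lib.MP_10d431_nt.main (Or.inr h) hprim, n, h1, hk, pow_add, pow_mul, h10,
      pow_add, h5]
    ring

end Pool.Agent.Lib.MP_10d431_nt.TenthRootsWithdrawn
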